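import Pool.Agent.Work.MP_8826fd_mp.NU.All

/-!
# Reverse Faber-Krahn inequality for domains with rotational symmetry of order `N ≥ C (1 + B R²)`

`lamN B Ω` is the lowest Neumann eigenvalue of the magnetic Laplacian with constant field `B` on `Ω`
(variational infimum, written exactly as in the frozen statements), `edisc p R` is the disc with
centre `p` and radius `R`, and `rotN N p` is the rotation by `2π/N` about `p`.  `C` is one absolute constant.
-/

namespace Pool.Agent.Results.MP_8826fd_mp.NFoldSymmetry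

open Pool.Agent.MFK Pool.Agent.MFK.NF MeasureTheory Set

theorem result :
    ∃ C : ℝ, 0 < C ∧ ∀ (B R : ℝ) (N : ℕ), 0 < B → 0 < R → C * (1 + B * R ^ 2) ≤ N →
      ∀ (p : ℝ × ℝ) (Ω : Set (ℝ × ℝ)), IsOpen Ω → SimplyConnectedSpace Ω →
        volume Ω = volume (edisc p R) → (∀ x ∈ Ω, rotN N p x ∈ Ω) →
        lamN B Ω ≤ lamN B (edisc p R) ∧ (lamN B Ω = lamN B (edisc p R) → Ω = edisc p R) :=
  NU.all_FinU

end Pool.Agent.Results.MP_8826fd_mp.NFoldSymmetry
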