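import Pool.Agent.Work.MP_8826fd_mp.RT.All

/-!
# Reverse Faber-Krahn inequality for a range of fields beyond the radial regime

`lamN B Ω` is the lowest Neumann eigenvalue of the magnetic Laplacian with constant field `B` on `Ω`
(variational infimum, written exactly as in the frozen statements), `lamRad B` is the same infimum over the
radial functions on the unit disc `disc`, and `edisc q R` is the disc with centre `q` and radius `R`.
-/

namespace Pool.Agent.Results.MP_8826fd_mp.RangeOfFields

open Pool.Agent.MFK Pool.Agent.MFK.NF Pool.Agent.MFK.RT MeasureTheory Set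

theorem result :
    ∃ b : ℝ, 0 < b ∧ lamN b disc < lamRad b ∧
      ∀ B R : ℝ, 0 < B → 0 < R → B * R ^ 2 ≤ b → ∃ c > (0 : ℝ),
        ∀ Ω : Set (ℝ × ℝ), IsOpen Ω → SimplyConnectedSpace Ω → volume Ω = volume (edisc 0 R) →
          ∃ q : ℝ × ℝ, lamN B Ω ≤ lamN B (edisc 0 R)
              - c * ∫ x in symmDiff Ω (edisc q R), min |Real.sqrt ((x.1 - q.1) ^ 2 + (x.2 - q.2) ^ 2) - R| R ∧
            (lamN B Ω = lamN B (edisc 0 R) → Ω = edisc q R) :=
  hFinD

end Pool.Agent.Results.MP_8826fd_mp.RangeOfFields
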