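import Pool.Agent.Work.MP_8826fd_mp.L1.All

/-!
# The reverse Faber-Krahn inequality, with stability, for all simply connected domains of small asymmetry, for every field

`lamN B Ω` is the lowest Neumann eigenvalue of the magnetic Laplacian with constant field `B` on `Ω`
(variational infimum, written exactly as in the frozen statements), `edisc q R` is the open disc with
centre `q` and radius `R`.
-/

namespace Pool.Agent.Results.MP_8826fd_mp.SmallAsymmetry

open Pool.Agent.MFK MeasureTheory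

/-- For all `B, R > 0` there are `ε, c > 0` such that every open simply connected `Ω` of area `π R²` (not necessarily bounded or
smooth) with `|Ω ∖ D(q₀,R)| ≤ ε` for some `q₀` satisfies
`λ(B, Ω) ≤ λ(B, D(0,R)) - c ∫_{Ω Δ D(q,R)} min(||x - q| - R|, R) dx` for some `q`, and `λ(B, Ω) = λ(B, D(0,R))` only if `Ω = D(q,R)`. -/
theorem result :
    ∀ B R : ℝ, 0 < B → 0 < R → ∃ ε > (0 : ℝ), ∃ c > (0 : ℝ), ∀ (Ω : Set (ℝ × ℝ)) (q₀ : ℝ × ℝ),
      IsOpen Ω → SimplyConnectedSpace Ω → volume Ω = volume (edisc 0 R) →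
      volume (Ω \ edisc q₀ R) ≤ ENNReal.ofReal ε →
      ∃ q : ℝ × ℝ, lamN B Ω ≤ lamN B (edisc 0 R)
          - c * ∫ x in symmDiff Ω (edisc q R), min |Real.sqrt ((x.1 - q.1) ^ 2 + (x.2 - q.2) ^ 2) - R| R ∧
        (lamN B Ω = lamN B (edisc 0 R) → Ω = edisc q R) :=
  L1.hFinL

end Pool.Agent.Results.MP_8826fd_mp.SmallAsymmetry
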