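import Pool.Agent.Work.MP_8826fd_mp.TC.AllM

/-!
# Reverse Faber-Krahn inequality for domains with a thin needle, all fields

`lamN B Ω` is the lowest Neumann eigenvalue of the magnetic Laplacian with constant field `B` on `Ω`
(variational infimum, written exactly as in the frozen statements), `edisc q R` is the open disc with centre `q` and
radius `R`, and `mv p a d z` are the coordinates of `z` for the origin `p` and the orthonormal axes `(a, d)`, `(-d, a)`.

`Needle κ r ε p a d Ω` means, with `(x, y) = mv p a d z` for `z` in `Ω`: `p` is not in `Ω`; for `0 < x < r` no point of `Ω` lies on the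
sides `|y| = κ x` of the wedge; the part of `Ω` with `0 < x < r`, `|y| < κ x` is nonempty and star-shaped towards `p` down to
`x > ε`.
-/

set_option autoImplicit false

namespace Pool.Agent.Results.MP_8826fd_mp.ThinNeedles

open Pool.Agent.MFK Pool.Agent.MFK.TC MeasureTheory Set

theorem result :
    ∃ κ₀ > (0 : ℝ), ∃ C > (0 : ℝ), ∃ c₁ > (0 : ℝ), ∀ (B R κ r ε a d : ℝ) (Ω : Set (ℝ × ℝ)) (p : ℝ × ℝ),
      0 < B → 0 < R → 0 < κ → κ ≤ κ₀ → C * R ≤ r → 0 ≤ ε → 2 * ε < r → κ ^ 2 * ε ^ 2 * B ≤ c₁ →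
      IsOpen Ω → SimplyConnectedSpace Ω → volume Ω = volume (edisc (0, 0) R) → a ^ 2 + d ^ 2 = 1 →
      Needle κ r ε p a d Ω →
      lamN B Ω ≤ lamN B (edisc (0, 0) R) ∧
        (lamN B Ω = lamN B (edisc (0, 0) R) → 0 < ε ∧ ∃ q : ℝ × ℝ, Ω = edisc q R) :=
  hNeedle

end Pool.Agent.Results.MP_8826fd_mp.ThinNeedles
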